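import Pool.Agent.H666R3.NG.Limit
import Pool.Agent.Y939.NG.Fam

/-!
# The section conjecture for the Nori fundamental gerbe fails over every finite field

Over every finite field `k` and for all `r` and `N` there is a smooth plane curve `X` of genus at
least `N` without points over the extensions of `k` of degree at most `r`, while the Nori
fundamental gerbe of any scheme over `k` has objects over `k`; so the map `σ_X` is not surjective.
The curves are
`Y ^ n + c (X ^ n - X ^ a Z ^ b + Z ^ n) = 0`, `n = a + b`, if `k` has more than two elements, and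
`Y ^ n + Y ^ (2 L) T_{a,b} (X, Z) + T_{a,b} (X, Z) T_{L,L} (X, Z) = 0`, where
`T_{a,b} = X ^ (a + b) - X ^ a Z ^ b + Z ^ (a + b)`, if `k` has two elements.
-/

set_option autoImplicit false

open CategoryTheory AlgebraicGeometry

namespace Pool.Agent.Results.MP_e6d05b_ag.EveryFiniteField

open Pool.Agent.H666R3.NG Pool.Agent.Y939.NG

/-- The spectrum of a field extension `K` of `k`, as a scheme over `k`. -/
noncomputable abbrev specOver (k K : Type) [Field k] [Field K] [Algebra k K] : Sch k :=
  Over.mk (Spec.map (CommRingCat.ofHom (algebraMap k K)))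

lemma finGen (k : Type) [Field k] [Finite k] : FinGenOverPrime k := by
  have := Fintype.ofFinite k
  refine ⟨Finset.univ, ?_⟩
  rw [Finset.coe_univ]
  exact Subfield.closure_univ

/-- The section conjecture for the Nori fundamental gerbe fails over every finite field `k`.
(1) For every scheme `X` over `k` without rational points, a Nori fundamental gerbe of `X` has
rational points (objects over `k`), and `σ_X` is not surjective.
(2) For all `r` and `N` there is a proper smooth geometrically integral (so geometrically connected)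
curve `X` over `k` of genus `g ≥ N` which has no point over `k`, and no point over the extensions of
`k` of degree at most `r`. -/
theorem result (k : Type) [Field k] [Finite k] :
    FinGenOverPrime k ∧
    (∀ X : Sch k, IsEmpty (pt k ⟶ X) → ∀ (Pi : OverSch k) (ξ : Pi.p.Fiber X)
      (h : IsNoriGerbe X Pi ξ), Nonempty (Points Pi) ∧ ¬ Function.Surjective (sigma h)) ∧
    ∀ r N : ℕ, ∃ (X : Sch k) (g : ℕ), N ≤ g ∧
      IsProper X.hom ∧ SmoothOfRelativeDimension 1 X.hom ∧ GeometricallyConnected X.hom ∧
      GeometricallyIntegral X.hom ∧ HasGenus X.hom g ∧ IsEmpty (pt k ⟶ X) ∧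
      (∀ (K : Type) [Field K] [Algebra k K], 0 < Module.finrank k K → Module.finrank k K ≤ r →
        IsEmpty (specOver k K ⟶ X)) ∧
      ∀ (Pi : OverSch k) (ξ : Pi.p.Fiber X) (h : IsNoriGerbe X Pi ξ),
        Nonempty (Points Pi) ∧ ¬ Function.Surjective (sigma h) := by
  have key : ∀ X : Sch k, IsEmpty (pt k ⟶ X) → ∀ (Pi : OverSch k) (ξ : Pi.p.Fiber X)
      (h : IsNoriGerbe X Pi ξ), Nonempty (Points Pi) ∧ ¬ Function.Surjective (sigma h) := by
    intro X hX Pi ξ h
    have := Fintype.ofFinite k
    obtain ⟨x⟩ := exists_point_profinite h.profinite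
    have y : Points Pi := Quotient.mk _ x
    refine ⟨⟨y⟩, fun hs => ?_⟩
    obtain ⟨a, _⟩ := hs y
    exact hX.false a
  refine ⟨finGen k, key, fun r N => ?_⟩
  obtain ⟨D, hD, hg, hpt⟩ := exists_curve k (max r 1) N
  have hempty : ∀ (K : Type) [Field K] [Algebra k K], 0 < Module.finrank k K →
      Module.finrank k K ≤ max r 1 →
      IsEmpty (specOver k K ⟶ Over.mk (Pool.Agent.Helper198.Sch.V.str D.J)) :=
    fun K _ _ h1 h2 => ⟨fun a => D.no_section (hpt K h1 h2) a.left (Over.w a)⟩
  have h0 : IsEmpty (pt k ⟶ Over.mk (Pool.Agent.Helper198.Sch.V.str D.J)) :=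
    ⟨fun a => D.no_section (hpt k (by simp) (by simp)) a.left (by
      have h1 : a.left ≫ Pool.Agent.Helper198.Sch.V.str D.J = 𝟙 _ := Over.w a
      exact h1.trans (Spec.map_id _).symm)⟩
  have hgi := Dat.Good.geometricallyIntegral_curve D hD
  refine ⟨Over.mk (Pool.Agent.Helper198.Sch.V.str D.J), (D.n - 1).choose 2, hg, D.isProper_curve,
    Dat.Good.smooth_curve D hD, ⟨?_⟩, hgi, D.hasGenus_curve, h0,
    fun K _ _ h1 h2 => hempty K h1 (h2.trans (le_max_left _ _)), key _ h0⟩
  intro K _ y Z fst snd hp
  have hZ : IsIntegral Z := hgi.geometrically_isIntegral y fst snd hp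
  infer_instance

end Pool.Agent.Results.MP_e6d05b_ag.EveryFiniteField
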