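import Pool.Agent.Y397.NG.Main

/-!
# The section conjecture for the Nori fundamental gerbe fails over all finite fields with at
least five elements, in infinitely many genera
-/

set_option autoImplicit false

open CategoryTheory AlgebraicGeometry

namespace Pool.Agent.Results.MP_e6d05b_ag.FailsOverEveryLargerFiniteField

open Pool.Agent.H666R3.NG

/-- (1) The Nori fundamental gerbe of every scheme over every finite field has a rational point.
(2) Let `k` be a finite field with `q ≥ 5` elements.  For every `m ≥ 1` prime to the characteristic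
there is a proper smooth geometrically connected curve `X` over `k` of genus
`(d - 1) (d - 2) / 2`, `d = m (q - 1)`, without rational points; so for its Nori fundamental gerbe
the map from the rational points of `X` to the isomorphism classes of rational points of the gerbe
is not surjective. -/
theorem result :
    (∀ (k : Type) [Field k] [Finite k] (X : Sch k) (Pi : OverSch k) (ξ : Pi.p.Fiber X),
      IsNoriGerbe X Pi ξ → Nonempty (Points Pi)) ∧
    ∀ (k : Type) [Field k] [Finite k], 5 ≤ Nat.card k → FinGenOverPrime k ∧
      ∀ m : ℕ, (m : k) ≠ 0 → ∃ X : Sch k,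
        IsProper X.hom ∧ SmoothOfRelativeDimension 1 X.hom ∧ GeometricallyConnected X.hom ∧
        HasGenus X.hom ((m * (Nat.card k - 1) - 1) * (m * (Nat.card k - 1) - 2) / 2) ∧
        IsEmpty (pt k ⟶ X) ∧
        ∀ (Pi : OverSch k) (ξ : Pi.p.Fiber X) (h : IsNoriGerbe X Pi ξ),
          ¬ Function.Surjective (sigma h) := by
  refine ⟨fun k _ _ X Pi ξ h => Pool.Agent.Y397.NG.points_nonempty k X Pi ξ h,
    fun k _ _ h5 => ⟨Pool.Agent.Y397.NG.finGen k, fun m hm => ?_⟩⟩
  obtain ⟨X, h1, h2, h3, h4, h6⟩ := Pool.Agent.Y397.NG.main k h5 m hm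
  refine ⟨X, h1, h2, h3, h4, h6, fun Pi ξ h hs => ?_⟩
  obtain ⟨y⟩ := Pool.Agent.Y397.NG.points_nonempty k X Pi ξ h
  obtain ⟨a, _⟩ := hs y
  exact h6.false a

end Pool.Agent.Results.MP_e6d05b_ag.FailsOverEveryLargerFiniteField
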